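import Pool.Agent.helper59.PT.Spec

set_option linter.all false
set_option autoImplicit false

/-!
# Row pt:RE of helper59's plan (reflection invariance), with its own proof of uniqueness
-/

namespace Pool.Agent.helper88.PT

open MvPolynomial Pool.Agent.helper59.PT
open scoped ComplexConjugate

/-- uniqueness of the Gaussian functional -/
theorem un {V : Type} [Fintype V] [DecidableEq V] (K : V → V → ℂ)
    (L L' : MvPolynomial V ℂ →ₗ[ℂ] ℂ) (h : IsG K L) (h' : IsG K L') : L = L' := by
  have key : ∀ n : ℕ, ∀ s : V →₀ ℕ, s.degree = n → L (monomial s 1) = L' (monomial s 1) := by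
    intro n
    induction n using Nat.strong_induction_on with
    | _ n ih =>
      intro s hs
      by_cases h0 : s = 0
      · subst h0
        have : (monomial (0 : V →₀ ℕ) (1 : ℂ)) = 1 := rfl
        rw [this, h.one, h'.one]
      · obtain ⟨v, hv⟩ : ∃ v, s v ≠ 0 := by
          by_contra hc
          push_neg at hc
          exact h0 (Finsupp.ext hc)
        set s' : V →₀ ℕ := s - Finsupp.single v 1 with hs'
        have hss : s = Finsupp.single v 1 + s' := by
          ext w
          simp only [hs', Finsupp.coe_add, Pi.add_apply, Finsupp.coe_tsub, Pi.sub_apply]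
          by_cases hw : w = v
          · subst hw
            simp
            omega
          · simp [Finsupp.single_apply, Ne.symm hw]
        have hmon : (monomial s (1 : ℂ)) = X v * monomial s' 1 := by
          rw [X, monomial_mul, ← hss, one_mul]
        have hdeg : s.degree = 1 + s'.degree := by
          conv_lhs => rw [hss]
          rw [map_add, Finsupp.degree_single]
        rw [hmon, h.step, h'.step]
        refine Finset.sum_congr rfl fun w _ => ?_
        congr 1
        rw [pderiv_monomial]
        have hlt : (s' - Finsupp.single w 1).degree < n := by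
          have h1 : (s' - Finsupp.single w 1).degree ≤ s'.degree :=
            Finsupp.degree_mono (tsub_le_self)
          omega
        have hsc : ∀ (M : MvPolynomial V ℂ →ₗ[ℂ] ℂ) (t : V →₀ ℕ) (c : ℂ),
            M (monomial t c) = c * M (monomial t 1) := by
          intro M t c
          have : (monomial t c : MvPolynomial V ℂ) = c • monomial t 1 := by
            rw [smul_monomial, smul_eq_mul, mul_one]
          rw [this, map_smul, smul_eq_mul]
        rw [hsc L, hsc L', ih _ hlt _ rfl]
  apply MvPolynomial.basisMonomials V ℂ |>.ext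
  intro s
  simpa using key _ s rfl

theorem thS_thS (σ : Sl) : thS (thS σ) = σ := by
  rcases σ with p | q <;> simp [thS]

/-- the reflection of the variables -/
def th (ι : Type) (v : Sl × ι) : Sl × ι := (thS v.1, v.2)

theorem th_th {ι : Type} (v : Sl × ι) : th ι (th ι v) = v := by
  simp [th, thS_thS]

theorem th_inj (ι : Type) : Function.Injective (th ι) := by
  intro v w h
  rw [← th_th v, h, th_th]

theorem KC_th {ι : Type} [DecidableEq ι] (c : Fin 3 → ℝ) (v w : Sl × ι) :
    KC c (th ι v) (th ι w) = KC c v w := by
  obtain ⟨σ, a⟩ := v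
  obtain ⟨τ, b⟩ := w
  rcases σ with p | q <;> rcases τ with p' | q'
  · simp [th, thS, KC]
  · have : circ c (2 - q') (2 - p) = circ c p q' := by
      unfold circ
      congr 1
      abel
    simp [th, thS, KC, this]
  · have : circ c (2 - q) (2 - p') = circ c p' q := by
      unfold circ
      congr 1
      abel
    simp [th, thS, KC, this]
  · simp [th, thS, KC]

theorem KC_conj {ι : Type} [DecidableEq ι] (c : Fin 3 → ℝ) (v w : Sl × ι) :
    conj (KC c v w) = KC c v w := by
  obtain ⟨σ, a⟩ := v
  obtain ⟨τ, b⟩ := w
  rcases σ with p | q <;> rcases τ with p' | q' <;> simp only [KC, map_zero] <;>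
    split_ifs <;> simp

/-- the reflected functional -/
noncomputable def Lth {ι : Type} (L : MvPolynomial (Sl × ι) ℂ →ₗ[ℂ] ℂ) :
    MvPolynomial (Sl × ι) ℂ →ₗ[ℂ] ℂ where
  toFun Q := conj (L (rename (th ι) (cj Q)))
  map_add' P Q := by simp [cj]
  map_smul' a Q := by
    simp only [cj, smul_eq_C_mul, map_mul, map_C, rename_C, RingHom.id_apply]
    rw [← smul_eq_C_mul, map_smul]
    simp

theorem Lth_apply {ι : Type} (L : MvPolynomial (Sl × ι) ℂ →ₗ[ℂ] ℂ) (Q : MvPolynomial (Sl × ι) ℂ) :
    Lth L Q = conj (L (rename (th ι) (cj Q))) := rfl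

theorem pderiv_cj {V : Type} (w : V) (Q : MvPolynomial V ℂ) :
    pderiv w (cj Q) = cj (pderiv w Q) := by
  unfold cj
  rw [pderiv_map]

theorem isG_Lth {ι : Type} [Fintype ι] [DecidableEq ι] (c : Fin 3 → ℝ)
    (L : MvPolynomial (Sl × ι) ℂ →ₗ[ℂ] ℂ) (h : IsG (KC c) L) : IsG (KC c) (Lth L) := by
  constructor
  · rw [Lth_apply]
    simp [cj, h.one]
  · intro v Q
    rw [Lth_apply]
    have h1 : rename (th ι) (cj (X v * Q)) = X (th ι v) * rename (th ι) (cj Q) := by
      simp [cj]
    rw [h1, h.step, map_sum]
    have hbij : Function.Bijective (th ι) :=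
      ⟨th_inj ι, fun w => ⟨th ι w, th_th w⟩⟩
    rw [← Function.Bijective.sum_comp hbij
      (fun w => conj (KC c (th ι v) w * L (pderiv w (rename (th ι) (cj Q)))))]
    refine Finset.sum_congr rfl fun w _ => ?_
    rw [map_mul, KC_th, KC_conj, Lth_apply]
    congr 2
    rw [pderiv_rename (th_inj ι), pderiv_cj]

theorem rowRE : Pool.Agent.helper59.PT.RowRE := by
  intro ι _ _ c L h Q
  have h1 := un (KC c) (Lth L) L (isG_Lth c L h) h
  have h2 : Lth L Q = L Q := by rw [h1]
  rw [Lth_apply] at h2
  have h3 := congrArg (starRingEnd ℂ) h2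
  rw [Complex.conj_conj] at h3
  exact h3

end Pool.Agent.helper88.PT
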